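import Mathlib

namespace Pool.Agent.H.MP_0d02c1_nt

open Finset ZMod

variable {n : ℕ} [NeZero n]

noncomputable def J {κ : Type} [Fintype κ] (y : κ → ZMod n) : ℝ := ∑ u, ∑ v, if y u = y v then 1 else 0

lemma orth (y : ZMod n) : ∑ l : ZMod n, stdAddChar (l * y) = if y = 0 then (n : ℂ) else 0 := by
  rw [AddChar.sum_mulShift y (isPrimitive_stdAddChar n), ZMod.card]
  split_ifs <;> simp

lemma pars {κ : Type} [Fintype κ] {c : κ → ℂ} (hc : ∀ u, ‖c u‖ ≤ 1) (y : κ → ZMod n) :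
    ∑ l : ZMod n, ‖∑ u, c u * stdAddChar (l * y u)‖ ^ 2 ≤ n * J y := by
  have e : ((∑ l : ZMod n, ‖∑ u, c u * stdAddChar (l * y u)‖ ^ 2 : ℝ) : ℂ) =
      ∑ u, ∑ v, c u * starRingEnd ℂ (c v) * if y u = y v then (n : ℂ) else 0 := by
    push_cast
    simp only [← Complex.mul_conj', map_sum, sum_mul_sum]
    simp only [← sub_eq_zero (a := y _), ← orth, mul_sum]
    rw [sum_comm]
    refine sum_congr rfl fun u _ => sum_comm.trans (sum_congr rfl fun v _ => sum_congr rfl fun l _ => ?_)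
    rw [map_mul (starRingEnd ℂ), ← AddChar.map_neg_eq_conj, mul_mul_mul_comm, ← AddChar.map_add_eq_mul, mul_sub, sub_eq_add_neg]
  refine (le_abs_self _).trans ((Complex.norm_real _).symm.trans_le ?_)
  rw [e, J, mul_sum]
  refine norm_sum_le_of_le _ fun u _ => ?_
  rw [mul_sum]
  refine norm_sum_le_of_le _ fun v _ => ?_
  split_ifs
  · simpa using mul_le_of_le_one_left n.cast_nonneg (mul_le_one₀ (hc u) (norm_nonneg _) (hc v))
  · simp

lemma cs {κ : Type} [Fintype κ] (y : κ → ZMod n) (F : ZMod n → ℝ) :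
    (∑ u, F (y u)) ^ 2 ≤ J y * ∑ l, F l ^ 2 := by
  refine le_of_eq_of_le ?_ ((sum_mul_sq_le_sq_mul_sq univ (fun l => ∑ u, if y u = l then (1 : ℝ) else 0)
    F).trans_eq (congrArg (· * _) ?_))
  · simp only [sum_mul]
    rw [sum_comm]
    simp
  · simp only [sq, sum_mul_sum]
    rw [sum_comm]
    refine sum_congr rfl fun u _ => sum_comm.trans (sum_congr rfl fun v _ => ?_)
    simp [eq_comm]

lemma cp {κ : Type} (s : Finset κ) (y : κ → ZMod n) : stdAddChar (∑ i ∈ s, y i) = ∏ i ∈ s, stdAddChar (y i) := by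
  classical
  induction s using Finset.induction_on with
  | empty => simp
  | insert i s hi ih => rw [sum_insert hi, prod_insert hi, AddChar.map_add_eq_mul, ih]

lemma pw {ι : Type} [Fintype ι] (g : ι → ZMod n) (c : ι → ℂ) (l : ZMod n) (K : ℕ) :
    (∑ j, c j * stdAddChar (l * g j)) ^ K =
      ∑ u : Fin K → ι, (∏ i, c (u i)) * stdAddChar (l * ∑ i, g (u i)) := by
  simp only [Fintype.sum_pow, prod_mul_distrib, mul_sum, cp]

lemma bil {ι : Type} [Fintype ι] (g : ι → ZMod n) (a : ZMod n) (k : ℕ) :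
    ‖∑ i, ∑ j, stdAddChar (a * (g i * g j))‖ ^ (2 * (k + 1) ^ 2) ≤
      (Fintype.card ι : ℝ) ^ (4 * k * (k + 1)) * n * J (fun u : Fin (k + 1) → ι => a * ∑ i, g (u i)) ^ 2 := by
  classical
  choose θ h1 h2 using fun i => Complex.exists_norm_eq_mul_self ((∑ j, stdAddChar (a * (g i * g j))) ^ (k + 1))
  obtain ⟨T, hT⟩ : ∃ T : ZMod n → ℝ, ∀ l, T l = ‖∑ i, θ i * stdAddChar (l * g i)‖ := ⟨_, fun _ => rfl⟩
  have T0 : ∀ l, 0 ≤ T l := fun l => hT l ▸ norm_nonneg _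
  have a1 : ∑ i, ‖∑ j, stdAddChar (a * (g i * g j))‖ ^ (k + 1) ≤
      ∑ u : Fin (k + 1) → ι, T (a * ∑ i, g (u i)) := by
    refine (le_abs_self _).trans ((Complex.norm_real _).symm.trans_le ?_)
    simp only [← norm_pow, Complex.ofReal_sum, h2, hT]
    refine le_trans (le_of_eq (congrArg _ (Eq.trans ?_ sum_comm))) (norm_sum_le _ _)
    refine sum_congr rfl fun i _ => ?_
    have := pw g (fun _ => 1) (a * g i) (k + 1)
    simp only [one_mul, prod_const_one, mul_assoc] at this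
    rw [this, mul_sum]
    simp only [mul_assoc, mul_comm (g i)]
  have a2 := (pow_le_pow_left₀ (norm_nonneg _) (norm_sum_le univ fun i => ∑ j, stdAddChar (a * (g i * g j)))
    _).trans ((pow_sum_le_card_mul_sum_pow
    (fun _ _ => norm_nonneg _) k).trans (mul_le_mul_of_nonneg_left a1 (by positivity)))
  have a3 := pow_sum_le_card_mul_sum_pow (s := univ) (f := fun u : Fin (k + 1) → ι => T (a * ∑ i, g (u i)))
    (fun _ _ => T0 _) k
  have a4 := cs (fun u : Fin (k + 1) → ι => a * ∑ i, g (u i)) fun l => T l ^ (k + 1)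
  have a5 := pars (c := fun u : Fin (k + 1) → ι => ∏ i, θ (u i)) (by simp [h1]) fun u => ∑ i, g (u i)
  simp only [← pw, norm_pow, ← hT] at a5
  have a6 : J (fun u : Fin (k + 1) → ι => ∑ i, g (u i)) ≤ J fun u : Fin (k + 1) → ι => a * ∑ i, g (u i) :=
    sum_le_sum fun u _ => sum_le_sum fun v _ => by
      by_cases h : ∑ i, g (u i) = ∑ i, g (v i) <;> simp only [h, if_true, if_false, le_refl]
      split_ifs <;> simp
  have J0 : 0 ≤ J fun u : Fin (k + 1) → ι => a * ∑ i, g (u i) :=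
    sum_nonneg fun _ _ => sum_nonneg fun _ _ => by split_ifs <;> simp
  have s0 : 0 ≤ ∑ u : Fin (k + 1) → ι, T (a * ∑ i, g (u i)) := sum_nonneg fun _ _ => T0 _
  simp only [card_univ, Fintype.card_fun, Fintype.card_fin, Nat.cast_pow] at a2 a3
  calc _ = ((‖∑ i, ∑ j, stdAddChar (a * (g i * g j))‖ ^ (k + 1)) ^ (k + 1)) ^ 2 := by ring
    _ ≤ ((Fintype.card ι ^ k * ∑ u : Fin (k + 1) → ι, T (a * ∑ i, g (u i))) ^ (k + 1)) ^ 2 := by gcongr
    _ ≤ ((Fintype.card ι ^ k) ^ (k + 1) * ((Fintype.card ι ^ (k + 1)) ^ k *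
      ∑ u : Fin (k + 1) → ι, T (a * ∑ i, g (u i)) ^ (k + 1))) ^ 2 := by
      rw [mul_pow]
      gcongr
    _ = Fintype.card ι ^ (4 * k * (k + 1)) * (∑ u : Fin (k + 1) → ι, T (a * ∑ i, g (u i)) ^ (k + 1)) ^ 2 := by ring
    _ ≤ Fintype.card ι ^ (4 * k * (k + 1)) * (J (fun u : Fin (k + 1) → ι => a * ∑ i, g (u i)) *
      (n * J fun u : Fin (k + 1) → ι => a * ∑ i, g (u i))) := by
      gcongr
      exact a4.trans (mul_le_mul_of_nonneg_left (a5.trans (by gcongr)) J0)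
    _ = _ := by ring

lemma cnt {ι : Type} [Fintype ι] {p : ι → ℕ} (hp : ∀ i, (p i).Prime) (pi : p.Injective) {g : ι → ZMod n}
    (hg : ∀ i, p i * g i = 1) {P k : ℕ} (hP : ∀ i, p i ≤ P) {a : ℤ} (a0 : a ≠ 0)
    (ha : a.natAbs * (2 * (k + 1) * P ^ (2 * k + 1)) < n) :
    J (fun u : Fin (k + 1) → ι => (a : ZMod n) * ∑ i, g (u i)) ≤
      ((k + 1) ^ (2 * (k + 1)) * Fintype.card ι ^ (k + 1) : ℕ) := by
  classical
  rw [J, ← Fintype.sum_prod_type', sum_boole, Nat.cast_le]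
  refine (card_le_card_of_surjOn (s := univ) (fun z : (Fin (k + 1) ⊕ Fin (k + 1) → Fin (k + 1)) ×
    (Fin (k + 1) → ι) => (fun i => z.2 (z.1 (.inl i)), fun i => z.2 (z.1 (.inr i)))) ?_).trans (by simp [two_mul])
  rintro ⟨u, v⟩ h
  obtain ⟨w, rfl, rfl⟩ : ∃ w : Fin (k + 1) ⊕ Fin (k + 1) → ι, (fun i => w (.inl i)) = u ∧
    (fun i => w (.inr i)) = v := ⟨Sum.elim u v, rfl, rfl⟩
  let e : Fin (k + 1) ⊕ Fin (k + 1) → ℤ := Sum.elim 1 (-1)
  have e1 : ∀ i, (e i).natAbs = 1 := by rintro (i | i) <;> rfl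
  have z : a * ∑ i, e i * ∏ j ∈ univ.erase i, (p (w j) : ℤ) = 0 := by
    refine Int.eq_zero_of_dvd_of_natAbs_lt_natAbs (d := n) ((intCast_zmod_eq_zero_iff_dvd _ _).1 ?_) ?_
    · have : ∀ i, ∏ j ∈ univ.erase i, (p (w j) : ZMod n) = (∏ j, (p (w j) : ZMod n)) * g (w i) := fun i => by
        rw [← mul_prod_erase _ _ (mem_univ i), mul_right_comm, hg, one_mul]
      push_cast
      simp only [this, mul_left_comm _ (∏ j, _), ← mul_sum]
      simp [e, (mem_filter.1 h).2, mul_add]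
    · rw [Int.natAbs_mul, Int.natAbs_natCast]
      refine lt_of_le_of_lt (Nat.mul_le_mul_left _ ((Int.natAbs_sum_le _ _).trans ((sum_le_card_nsmul _ _
        (P ^ (2 * k + 1)) fun i _ => ?_).trans (by simp [two_mul])))) ha
      rw [Int.natAbs_mul, e1, one_mul, ← Nat.cast_prod, Int.natAbs_natCast]
      exact (prod_le_pow_card _ _ P fun j _ => hP _).trans (by simp [two_mul, add_assoc, add_comm 1])
  have d : ∀ i, ∃ j, j ≠ i ∧ w j = w i := fun i => by
    have z := (mul_eq_zero.1 z).resolve_left a0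
    rw [← add_sum_erase _ _ (mem_univ i), add_eq_zero_iff_eq_neg] at z
    have : (p (w i) : ℤ) ∣ e i * ∏ j ∈ univ.erase i, (p (w j) : ℤ) := z ▸ (dvd_sum fun l hl =>
      (dvd_prod_of_mem _ (mem_erase.2 ⟨(ne_of_mem_erase hl).symm, mem_univ _⟩)).mul_left _).neg_right
    rw [Int.natCast_dvd, Int.natAbs_mul, e1, one_mul, ← Nat.cast_prod, Int.natAbs_natCast] at this
    obtain ⟨j, h1, h2⟩ := (hp _).prime.exists_mem_finset_dvd this
    exact ⟨j, ne_of_mem_erase h1, pi ((Nat.prime_dvd_prime_iff_eq (hp _) (hp _)).1 h2).symm⟩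
  have c := mul_card_image_le_card (f := w) univ 2 fun b hb => by
    obtain ⟨i, -, rfl⟩ := mem_image.1 hb
    obtain ⟨j, h1, h2⟩ := d i
    exact one_lt_card.2 ⟨j, by simpa, i, by simp, h1⟩
  obtain ⟨f⟩ := Function.Embedding.nonempty_of_card_le (α := univ.image w) (β := Fin (k + 1)) (by
    rw [card_univ, Fintype.card_sum, Fintype.card_fin] at c
    rw [Fintype.card_coe, Fintype.card_fin]
    omega)
  haveI : Nonempty (univ.image w) := ⟨⟨_, mem_image_of_mem _ (mem_univ (.inl 0))⟩⟩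
  refine ⟨(fun i => f ⟨_, mem_image_of_mem _ (mem_univ i)⟩, fun c => (Function.invFun f c).1), mem_univ _, ?_⟩
  simp only [Function.leftInverse_invFun f.injective _]

end Pool.Agent.H.MP_0d02c1_nt
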