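import Pool.Agent.H.MP_0d02c1_nt.A

namespace Pool.Agent.H.MP_0d02c1_nt

open Finset ZMod Filter Topology

section
variable {n : ℕ} [NeZero n]

lemma geo (a : ZMod n) (H : ℕ) :
    (∑ s : Fin H, stdAddChar (a * ((s.1 + 1 : ℕ) : ZMod n))) * (stdAddChar a - 1) =
    stdAddChar (a * ((H + 1 : ℕ) : ZMod n)) - stdAddChar a := by
  induction H with
  | zero => simp
  | succ H ih =>
    rw [Fin.sum_univ_castSucc, add_mul]
    simp only [Fin.val_castSucc, ih, Fin.val_last, Nat.cast_add (H + 1) 1, mul_add, AddChar.map_add_eq_mul,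
      Nat.cast_one, mul_one]
    ring

lemma sep (a : ZMod n) : 4 * (a.valMinAbs.natAbs : ℝ) / n ≤ ‖stdAddChar a - 1‖ := by
  have n0 : (0 : ℝ) < n := by exact_mod_cast Nat.pos_of_neZero n
  have h : (a.valMinAbs.natAbs : ℝ) * 2 ≤ n := by
    exact_mod_cast (Nat.le_div_iff_mul_le two_pos).1 (natAbs_valMinAbs_le a)
  have e : |Real.pi * a.valMinAbs / n| = Real.pi * a.valMinAbs.natAbs / n := by
    rw [abs_div, abs_mul, abs_of_pos Real.pi_pos, abs_of_pos n0, Nat.cast_natAbs, Int.cast_abs]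
  have := Real.mul_abs_le_abs_sin (x := Real.pi * a.valMinAbs / n) (by
    rw [e, div_le_div_iff₀ n0 two_pos, mul_assoc]
    exact mul_le_mul_of_nonneg_left h Real.pi_pos.le)
  conv_rhs => rw [← a.coe_valMinAbs, stdAddChar_coe, show 2 * Real.pi * Complex.I * a.valMinAbs / n =
    Complex.I * (2 * (Real.pi * a.valMinAbs / n) : ℝ) by push_cast; ring, Complex.norm_exp_I_mul_ofReal_sub_one,
    mul_div_cancel_left₀ _ two_ne_zero, norm_mul, Real.norm_two, Real.norm_eq_abs]
  refine le_trans (le_of_eq ?_) (mul_le_mul_of_nonneg_left this two_pos.le)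
  rw [e]
  field_simp [Real.pi_ne_zero]
  ring

lemma core {ι : Type} [Fintype ι] {p : ι → ℕ} (hp : ∀ i, (p i).Prime) (pi : p.Injective)
    (hc : ∀ i, (p i).Coprime n) {P k r H : ℕ} (hP : ∀ i, p i ≤ P) (h1 : n ≤ r * H) (h2 : H ≤ n)
    (h3 : r ^ 2 * (2 * (k + 1) * P ^ (2 * k + 1)) < n)
    (h4 : n * (k + 1) ^ (4 * (k + 1)) * (4 * r) ^ (2 * (k + 1) ^ 2) ≤ Fintype.card ι ^ (2 * (k + 1))) :
    ∃ i j z, 0 < z ∧ z ≤ 3 * H ∧ n ∣ p i * p j * z + 1 := by
  classical
  by_contra! hn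
  choose g hg using fun i => ((isUnit_iff_coprime _ _).2 (hc i)).exists_right_inv
  have n0 := Nat.pos_of_neZero n
  have r0 : 0 < r := Nat.pos_of_mul_pos_right (n0.trans_le h1)
  have H0 : 0 < H := Nat.pos_of_mul_pos_left (n0.trans_le h1)
  have m0 : 0 < Fintype.card ι := Nat.pos_of_ne_zero fun k => by
    rw [k, zero_pow (by omega)] at h4
    exact h4.not_gt (by positivity)
  obtain ⟨D, hD⟩ : ∃ D : ZMod n → ℂ, ∀ a, D a = ∑ s : Fin H, stdAddChar (a * ((s.1 + 1 : ℕ) : ZMod n)) :=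
    ⟨_, fun _ => rfl⟩
  obtain ⟨S, hS⟩ : ∃ S : ZMod n → ℂ, ∀ a, S a = ∑ i, ∑ j, stdAddChar (a * (g i * g j)) := ⟨_, fun _ => rfl⟩
  have z : ∑ a, S a * D a ^ 3 = 0 := by
    have := fun a => pw (fun s : Fin H => ((s.1 + 1 : ℕ) : ZMod n)) (fun _ => 1) a 3
    simp only [one_mul, prod_const_one, ← hD] at this
    have e : ∀ a, S a * D a ^ 3 = ∑ i, ∑ j, ∑ u : Fin 3 → Fin H,
        stdAddChar (a * (g i * g j + ∑ l, (((u l).1 + 1 : ℕ) : ZMod n))) := fun a => by
      rw [this, hS, sum_mul]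
      refine sum_congr rfl fun i _ => ?_
      simp only [sum_mul_sum, mul_add a, AddChar.map_add_eq_mul]
    simp only [e]
    refine sum_comm.trans (sum_eq_zero fun i _ => sum_comm.trans (sum_eq_zero fun j _ => sum_comm.trans
      (sum_eq_zero fun u _ => (orth _).trans (if_neg fun k => hn i j (∑ l, ((u l).1 + 1)) ?_ ?_ ?_))))
    · exact sum_pos (fun _ _ => Nat.succ_pos _) univ_nonempty
    · simpa using sum_le_card_nsmul univ (fun l => (u l).1 + 1) H fun l _ => (u l).2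
    · rw [← natCast_eq_zero_iff]
      push_cast at k ⊢
      linear_combination (p i * p j) * k - (p j * g j) * hg i - hg j
  have d1 : ∀ a, ‖D a‖ ≤ H := fun a => by
    rw [hD]
    exact (norm_sum_le _ _).trans (by simp)
  have d2 : ∑ a, ‖D a‖ ^ 2 ≤ n * H := by
    have := pars (c := fun _ => 1) (by simp) fun s : Fin H => ((s.1 + 1 : ℕ) : ZMod n)
    simp only [one_mul, ← hD] at this
    refine this.trans (mul_le_mul_of_nonneg_left (le_of_eq ?_) (by positivity))
    have : ∀ u v : Fin H, (((u.1 + 1 : ℕ) : ZMod n) = (v.1 + 1 : ℕ)) = (u = v) := fun u v => by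
      rw [Nat.cast_succ, Nat.cast_succ, add_left_inj, natCast_eq_natCast_iff', Nat.mod_eq_of_lt (u.2.trans_le h2),
        Nat.mod_eq_of_lt (v.2.trans_le h2), Fin.ext_iff]
    simp only [J, this]
    simp
  obtain ⟨m, hm⟩ : ∃ m : ℝ, m = Fintype.card ι := ⟨_, rfl⟩
  have m1 : 0 < m := hm ▸ Nat.cast_pos.2 m0
  have key : ∀ a, a ≠ 0 → ‖S a * D a ^ 3‖ ≤ (m ^ 2 / (4 * r) * H + m ^ 2 * (n / (2 * r ^ 2))) * ‖D a‖ ^ 2 := by
    intro a a0
    rw [norm_mul, norm_pow, pow_succ' _ 2, ← mul_assoc]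
    refine mul_le_mul_of_nonneg_right ?_ (by positivity)
    rcases le_total a.valMinAbs.natAbs (r ^ 2) with h | h
    · refine le_add_of_le_of_nonneg (mul_le_mul ?_ (d1 a) (norm_nonneg _) (by positivity)) (by positivity)
      have b1 := cnt hp pi hg hP (mt (valMinAbs_eq_zero a).1 a0) ((Nat.mul_le_mul_right _ h).trans_lt h3)
      have b2 := bil g a k
      rw [coe_valMinAbs] at b1
      have b3 : (n * (k + 1) ^ (4 * (k + 1)) * (4 * r) ^ (2 * (k + 1) ^ 2) : ℝ) ≤ m ^ (2 * (k + 1)) := by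
        rw [hm]
        exact_mod_cast h4
      push_cast at b1
      rw [← hS, ← hm] at *
      refine le_of_pow_le_pow_left₀ (n := 2 * (k + 1) ^ 2) (by positivity) (by positivity) (b2.trans ?_)
      rw [div_pow, le_div_iff₀ (by positivity)]
      calc _ ≤ m ^ (4 * k * (k + 1)) * n * ((k + 1) ^ (2 * (k + 1)) * m ^ (k + 1)) ^ 2 *
            (4 * r) ^ (2 * (k + 1) ^ 2) := by
            gcongr
            exact sum_nonneg fun _ _ => sum_nonneg fun _ _ => by split_ifs <;> simp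
        _ = m ^ (4 * k * (k + 1) + 2 * (k + 1)) *
          (n * (k + 1) ^ (4 * (k + 1)) * (4 * r) ^ (2 * (k + 1) ^ 2)) := by ring
        _ ≤ m ^ (4 * k * (k + 1) + 2 * (k + 1)) * m ^ (2 * (k + 1)) := by gcongr
        _ = _ := by ring
    · refine le_add_of_nonneg_of_le (by positivity) (mul_le_mul ?_ ?_ (norm_nonneg _) (by positivity))
      · rw [hS]
        exact (norm_sum_le_of_le _ fun i _ => norm_sum_le _ _).trans (by simp [hm, sq])
      have b1 := (congrArg norm (geo a H)).trans_le (norm_sub_le _ _)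
      rw [norm_mul, ← hD, AddChar.norm_apply, AddChar.norm_apply] at b1
      have b2 : 4 * (r : ℝ) ^ 2 / n ≤ _ := le_trans (by gcongr; exact_mod_cast h) (sep a)
      have b3 := (mul_le_mul_of_nonneg_left b2 (norm_nonneg (D a))).trans b1
      rw [← mul_div_assoc, div_le_iff₀ (by positivity)] at b3
      rw [le_div_iff₀ (by positivity)]
      linarith
  rw [← add_sum_erase _ _ (mem_univ 0), add_eq_zero_iff_eq_neg] at z
  have e := (congrArg norm z).trans_le ((norm_neg _).trans_le (norm_sum_le_of_le _ fun a ha =>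
    key a (ne_of_mem_erase ha)))
  rw [← mul_sum] at e
  replace e := e.trans (mul_le_mul_of_nonneg_left ((sum_le_sum_of_subset_of_nonneg (erase_subset _ _)
    fun _ _ _ => by positivity).trans d2) (by positivity))
  have e1 : ‖S 0 * D 0 ^ 3‖ = m ^ 2 * H ^ 3 := by simp [hS, hD, hm, sq]
  have e2 : (n : ℝ) ≤ r * H := by exact_mod_cast h1
  refine (e1.symm.trans_le e).not_gt ?_
  calc _ ≤ (m ^ 2 / (4 * r) * H + m ^ 2 * (r * H / (2 * r ^ 2))) * (r * H * H) := by gcongr
    _ = 3 / 4 * (m ^ 2 * H ^ 3) := by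
      field_simp
      ring
    _ < _ := mul_lt_of_lt_one_left (by positivity) (by norm_num)

end

end Pool.Agent.H.MP_0d02c1_nt
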