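import Pool.Agent.H.MP_0d02c1_nt.B

namespace Pool.Agent.H.MP_0d02c1_nt

open Finset Filter Topology Real

noncomputable def ρ (L n : ℕ) : ℝ := (n : ℝ) ^ ((L : ℝ)⁻¹)

lemma ρt {L : ℕ} (h : 0 < L) : Tendsto (ρ L) atTop atTop :=
  (tendsto_rpow_atTop (by positivity)).comp tendsto_natCast_atTop_atTop

lemma ρp {L : ℕ} (h : 0 < L) (n : ℕ) : ρ L n ^ L = n := rpow_inv_natCast_pow n.cast_nonneg h.ne'

lemma many {t : ℝ} {β L n : ℕ} (t2 : 2 ≤ t) (h : (16 * (β + 3) + 2 * L) * log t ≤ t) (hn : t ^ L = n) :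
    t ^ (β + 1) ≤ #(Nat.primesLE ⌊t ^ (β + 2)⌋₊ \ n.primeFactors) := by
  have l0 := log_pos (show 1 < t by linarith)
  have l2 := log_two_gt_d9
  have n0 : 0 < n := by exact_mod_cast hn ▸ pow_pos (show 0 < t by linarith) L
  have a1 : (#n.primeFactors : ℝ) * log 2 ≤ L * log t := by
    rw [← log_pow, ← log_pow, hn]
    exact log_le_log (by positivity) (by exact_mod_cast (pow_card_le_prod _ _ 2 fun p hp =>
      (Nat.prime_of_mem_primeFactors hp).two_le).trans (Nat.le_of_dvd n0 n.prod_primeFactors_dvd))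
  obtain ⟨P, hP⟩ : ∃ P, P = ⌊t ^ (β + 2)⌋₊ := ⟨_, rfl⟩
  have a2 := (Chebyshev.psi_ge P).trans (Chebyshev.psi_le_primeCounting_mul_log P)
  have a3 : (#(Nat.primesLE P) : ℝ) ≤ #(Nat.primesLE P \ n.primeFactors) + #n.primeFactors := by
    exact_mod_cast card_le_card_sdiff_add_card
  have b0 : t ≤ t ^ (β + 1) := le_self_pow₀ (by linarith) (by omega)
  have b1 : (P : ℝ) ≤ t ^ (β + 2) := hP ▸ Nat.floor_le (by positivity)
  have b2 : t ^ (β + 2) < P + 1 := hP ▸ Nat.lt_floor_add_one _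
  have b3 : t ^ (β + 2) = t ^ (β + 1) * t := pow_succ _ _
  have P1 : (1 : ℝ) ≤ P := by nlinarith
  have b4 : log (P + 1) ≤ (β + 3) * log t := by
    have := log_le_log (by positivity) (show (P : ℝ) + 1 ≤ t ^ (β + 3) by rw [pow_succ]; nlinarith)
    rwa [log_pow, Nat.cast_add] at this
  have b5 : log P ≤ log (P + 1) := log_le_log (by positivity) (by linarith)
  rw [Nat.primesLE_card_eq_primeCounting] at a3
  have b6 : (β + 3) * log t ≤ t / 16 := by nlinarith [mul_nonneg L.cast_nonneg l0.le]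
  have b7 : (#n.primeFactors : ℝ) ≤ t := by nlinarith [mul_nonneg (show (0 : ℝ) ≤ β + 3 by positivity) l0.le]
  have b8 : t ^ (β + 1) * t / 4 ≤ (P.primeCounting + 1) * (t / 16) := by
    nlinarith [mul_le_mul_of_nonneg_left (b5.trans (b4.trans b6)) P.primeCounting.cast_nonneg]
  rw [← hP]
  nlinarith

lemma kar (k : ℕ) : ∃ L, 0 < L ∧ ∀ᶠ n : ℕ in atTop, ∃ x z : ℕ, 0 < x ∧ 0 < z ∧ x < n ∧ z < n ∧
    n ∣ x * z + 1 ∧ (x : ℝ) ≤ ρ (k + 1) n ∧ z * ρ L n ≤ 6 * n := by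
  obtain ⟨β, hβ⟩ : ∃ β, β = 2 * (k + 2) ^ 2 + 2 * (k + 2) + 2 := ⟨_, rfl⟩
  obtain ⟨L, hL⟩ : ∃ L, L = 3 + (β + 2) * (2 * (k + 1) + 1) := ⟨_, rfl⟩
  have L0 : 0 < L := by omega
  refine ⟨L, L0, ?_⟩
  filter_upwards [(ρt L0).eventually ((isLittleO_log_id_atTop.const_mul_left (16 * (β + 3) + 2 * L : ℝ)).bound
    one_pos), (ρt L0).eventually_gt_atTop (8 * (k + 2) + (k + 2) ^ (4 * (k + 2)) * 8 ^ (2 * (k + 2) ^ 2))]
    with n h1 h2
  have hn := ρp L0 n
  generalize ρ L n = t at *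
  have c1 : 8 * (k + 2 : ℝ) < t := lt_of_le_of_lt (le_add_of_nonneg_right (by positivity)) h2
  have c2 : (k + 2 : ℝ) ^ (4 * (k + 2)) * 8 ^ (2 * (k + 2) ^ 2) ≤ t :=
    (le_add_of_nonneg_left (by positivity)).trans h2.le
  have c3 : 16 ≤ t := by linarith [k.cast_nonneg (α := ℝ)]
  have t1 : 1 < t := by linarith
  have n0 : (0 : ℝ) < n := hn ▸ by positivity
  haveI : NeZero n := ⟨by exact_mod_cast n0.ne'⟩
  have r1 : (⌈t⌉₊ : ℝ) ≤ 2 * t := by linarith [Nat.ceil_lt_add_one (show 0 ≤ t by linarith)]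
  have P1 : (⌊t ^ (β + 2)⌋₊ : ℝ) ≤ t ^ (β + 2) := Nat.floor_le (by positivity)
  have m1 := many (β := β) (by linarith) ((le_abs_self _).trans (h1.trans_eq (by simpa using by linarith))) hn
  obtain ⟨i, j, z, z0, z1, hz⟩ := core (ι := ↥(Nat.primesLE ⌊t ^ (β + 2)⌋₊ \ n.primeFactors)) (n := n)
    (fun i => Nat.prime_of_mem_primesLE (mem_sdiff.1 i.2).1) Subtype.val_injective
    (fun i => (Nat.Prime.coprime_iff_not_dvd (Nat.prime_of_mem_primesLE (mem_sdiff.1 i.2).1)).2 fun h =>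
      (mem_sdiff.1 i.2).2 (Nat.mem_primeFactors.2 ⟨Nat.prime_of_mem_primesLE (mem_sdiff.1 i.2).1, h, NeZero.ne n⟩))
    (k := k + 1) (r := ⌈t⌉₊) (H := ⌈n / t⌉₊) (fun i => Nat.le_of_mem_primesLE (mem_sdiff.1 i.2).1)
    (by
      have := mul_le_mul (Nat.le_ceil t) (Nat.le_ceil (n / t)) (by positivity) (by positivity)
      rw [mul_div_cancel₀ _ (by positivity)] at this
      exact_mod_cast this)
    (Nat.ceil_le.2 (div_le_self n0.le t1.le))
    (by
      rw [← Nat.cast_lt (α := ℝ), ← hn]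
      push_cast
      calc _ ≤ (2 * t) ^ 2 * (2 * (k + 1 + 1) * (t ^ (β + 2)) ^ (2 * (k + 1) + 1)) := by gcongr
        _ = 8 * (k + 2) * (t ^ 2 * (t ^ (β + 2)) ^ (2 * (k + 1) + 1)) := by ring
        _ < t * (t ^ 2 * (t ^ (β + 2)) ^ (2 * (k + 1) + 1)) := by gcongr
        _ = _ := by rw [hL]; ring)
    (by
      rw [← Nat.cast_le (α := ℝ), Fintype.card_coe]
      push_cast
      calc _ ≤ n * (k + 1 + 1) ^ (4 * (k + 1 + 1)) * (4 * (2 * t)) ^ (2 * (k + 1 + 1) ^ 2) := by gcongr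
        _ = n * ((k + 2 : ℝ) ^ (4 * (k + 2)) * 8 ^ (2 * (k + 2) ^ 2)) * t ^ (2 * (k + 2) ^ 2) := by
          rw [← mul_assoc, mul_pow]
          norm_num [add_assoc, mul_assoc]
        _ ≤ n * t * t ^ (2 * (k + 2) ^ 2) := by gcongr
        _ = (t ^ (β + 1)) ^ (2 * (k + 1 + 1)) := by
          rw [← hn, ← pow_succ, ← pow_add, ← pow_mul, hL, hβ]
          congr 1
          ring
        _ ≤ _ := by gcongr)
  have x1 : ((i.1 * j.1 : ℕ) : ℝ) ≤ t ^ (2 * (β + 2)) := by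
    rw [two_mul, pow_add t (β + 2), Nat.cast_mul]
    exact mul_le_mul ((Nat.cast_le.2 (Nat.le_of_mem_primesLE (mem_sdiff.1 i.2).1)).trans P1)
      ((Nat.cast_le.2 (Nat.le_of_mem_primesLE (mem_sdiff.1 j.2).1)).trans P1) (by positivity) (by positivity)
  have z2 : z * t ≤ 6 * n := by
    have a : (z : ℝ) ≤ 3 * ⌈n / t⌉₊ := by exact_mod_cast z1
    have b := Nat.ceil_lt_add_one (show 0 ≤ n / t by positivity)
    have c : t ≤ n := hn ▸ le_self_pow₀ t1.le L0.ne'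
    rw [← le_div_iff₀ (by positivity), mul_div_assoc]
    linarith [(one_le_div (by positivity)).2 c]
  refine ⟨_, z, mul_pos (Nat.prime_of_mem_primesLE (mem_sdiff.1 i.2).1).pos
    (Nat.prime_of_mem_primesLE (mem_sdiff.1 j.2).1).pos, z0, ?_, ?_, hz, ?_, z2⟩
  · exact_mod_cast x1.trans_lt ((pow_lt_pow_right₀ t1 (by nlinarith)).trans_eq hn)
  · exact_mod_cast (by nlinarith : (z : ℝ) < n)
  · refine (le_rpow_inv_iff_of_pos (by positivity) n0.le (by positivity)).2 ?_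
    rw [rpow_natCast, ← hn]
    exact (pow_le_pow_left₀ (by positivity) x1 _).trans ((pow_mul _ _ _).ge.trans
      (pow_le_pow_right₀ t1.le (by nlinarith)))

def Hy (n : ℕ) : Set (ℝ × ℝ) := {p | ∃ x y : ℕ, 1 ≤ x ∧ x ≤ n - 1 ∧ 1 ≤ y ∧ y ≤ n - 1 ∧
  Nat.ModEq n (x * y) 1 ∧ p = ((x : ℝ), (y : ℝ))}

lemma fin (n : ℕ) : (Hy n).Finite := ((range n ×ˢ range n).finite_toSet.image
  fun q : ℕ × ℕ => ((q.1 : ℝ), (q.2 : ℝ))).subset fun _ ⟨x, y, _, _, _, _, _, e⟩ =>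
    ⟨(x, y), by simp; omega, e.symm⟩

lemma ext {n : ℕ} {q : ℝ × ℝ} (hq : q ∈ Hy n) {X Z : ℝ} (h : q.1 / X + (n - q.2) / Z < 3) :
    ∃ e ∈ (convexHull ℝ (Hy n)).extremePoints ℝ, e.1 / X + (n - e.2) / Z < 3 := by
  by_contra! k
  have := closure_convexHull_extremePoints ((fin n).isCompact_convexHull ℝ) (convex_convexHull ℝ _)
  have a : convexHull ℝ (Hy n) ⊆ {w | 3 - n / Z ≤ w.1 / X - w.2 / Z} := this ▸ closure_minimal (convexHull_min
    (fun e he => by have := k e he; rw [sub_div] at this; rw [Set.mem_ofPred_eq]; linarith) (convex_halfSpace_ge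
      ⟨fun _ _ => by simp; ring, fun _ _ => by simp; ring⟩ _)) (isClosed_le (by fun_prop) (by fun_prop))
  have b : 3 - n / Z ≤ _ := a (subset_convexHull ℝ _ hq)
  rw [sub_div] at h
  linarith

theorem chain (M : ℕ) : ∀ k : ℕ, ∀ᶠ n : ℕ in atTop, ∃ E : Finset (ℝ × ℝ), #E = M ∧
    ∀ e ∈ E, e ∈ (convexHull ℝ (Hy n)).extremePoints ℝ ∧ e.1 < 3 * ρ (k + 1) n := by
  induction M with
  | zero => exact fun _ => .of_forall fun _ => ⟨∅, rfl, by simp⟩
  | succ M ih =>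
    intro k
    obtain ⟨L, L0, h⟩ := kar k
    filter_upwards [h, ih (k + 2 * L), (ρt (show 0 < 2 * L by omega)).eventually_ge_atTop 108,
      eventually_ge_atTop 2] with n ⟨x, z, x0, z0, x1, z1, hd, x2, z2⟩ ⟨E, E1, E2⟩ c n2
    have n1 : (2 : ℝ) ≤ n := by exact_mod_cast n2
    have mo : ∀ {a b : ℕ}, 0 < a → a ≤ b → ρ b n ≤ ρ a n := fun a b =>
      rpow_le_rpow_of_exponent_le (by linarith) (by gcongr)
    have p0 : ∀ a, 0 < ρ a n := fun a => rpow_pos_of_pos (by linarith) _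
    have sq : ρ L n = ρ (2 * L) n ^ 2 := (pow_left_inj₀ (p0 _).le (by positivity) L0.ne').1
      (by rw [← pow_mul, ρp L0, ρp (by omega)])
    obtain ⟨e, e1, e2⟩ := ext (n := n) (q := (x, ((n - z : ℕ) : ℝ))) (X := ρ (k + 1) n) (Z := 6 * n / ρ L n)
      ⟨x, n - z, x0, by omega, by omega, by omega, by
        rw [Nat.modEq_iff_dvd, Nat.cast_mul, Nat.cast_sub z1.le]
        obtain ⟨c, hc⟩ := hd
        exact ⟨c - x, by zify at hc; linear_combination hc⟩, rfl⟩ (by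
        have a := (div_le_one (p0 _)).2 x2
        have b := (div_le_one (by have := p0 L; positivity)).2 ((le_div_iff₀ (p0 _)).2 z2)
        rw [Nat.cast_sub z1.le, sub_sub_cancel]
        linarith)
    obtain ⟨a, b, a0, a1, b0, b1, hab, rfl⟩ := extremePoints_convexHull_subset e1
    have b2 : (b : ℝ) < n := by exact_mod_cast (by omega : b < n)
    have u1 : 0 ≤ (a : ℝ) / ρ (k + 1) n := div_nonneg a.cast_nonneg (p0 _).le
    have u2 : 0 ≤ (n - b : ℝ) / (6 * n / ρ L n) := div_nonneg (by linarith) (by have := p0 L; positivity)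
    have u3 := (div_lt_iff₀ (p0 _)).1 (show (a : ℝ) / ρ (k + 1) n < 3 by linarith)
    have u4 := (div_lt_iff₀ (by have := p0 L; positivity)).1 (show (n - b : ℝ) / (6 * n / ρ L n) < 3 by linarith)
    have u5 : (n : ℝ) ≤ a * (n - b) + 1 := by
      have : (n : ℤ) ∣ a * (n - b) + 1 := by
        obtain ⟨c, hc⟩ := Nat.modEq_iff_dvd.1 hab
        exact ⟨a + c, by push_cast at hc; linear_combination hc⟩
      exact_mod_cast Int.le_of_dvd (by nlinarith [show (b : ℤ) < n by exact_mod_cast b2]) this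
    rw [← mul_div_assoc, lt_div_iff₀ (p0 _), sq] at u4
    refine ⟨insert _ E, (card_insert_of_notMem fun he => ?_).trans (by rw [E1]), forall_mem_insert _ _ _ |>.2
      ⟨⟨e1, u3⟩, fun e he => ⟨(E2 e he).1, (E2 e he).2.trans_le (by linarith [mo k.succ_pos (by omega :
        k + 1 ≤ k + 2 * L + 1)])⟩⟩⟩
    have v : (a : ℝ) ≤ 3 * ρ (2 * L) n := by
      linarith [show (a : ℝ) < _ from (E2 _ he).2, mo (by omega : 0 < 2 * L) (by omega : 2 * L ≤ k + 2 * L + 1)]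
    generalize ρ (2 * L) n = s at *
    nlinarith [mul_le_mul_of_nonneg_right v (sub_pos.2 b2).le, mul_le_mul_of_nonneg_right c (mul_pos
      (sub_pos.2 b2) (show 0 < s by linarith)).le]

end Pool.Agent.H.MP_0d02c1_nt
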